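import Mathlib
import Pool.Agent.Lib.P0c8ca5V.Cong
import Pool.Agent.Lib.P0c8ca5Se.Fin
import Pool.Agent.Lib.P0c8ca5Se.Pow
import Pool.Agent.Lib.P0c8ca5Id.SecN
import Pool.Agent.Lib.P0c8ca5Id.Lbr
import Pool.Agent.Lib.P0c8ca5Kp.KrP

/-!
# Navarro's equality modulo p

Call a section `E / R` good if it has a central element `z` outside its commutator subgroup, or if
`p = 2` (`p = 3`) and it has a central element `z` with `z ^ p = 1` that is not the 4th (3rd) power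
of an element `y` conjugate in `E / R` to all its powers `y ^ j` with `j` congruent to 1 modulo `p`.

Let `Γ / G` be a `p`-group, `B` a `Γ`-invariant block of `G` with defect group `D`. The two sides
of Navarro's equality for `(Γ, G, B)` are congruent modulo `p` if all nontrivial defect groups `S`
of the blocks of `N_G(Q)/Q` below `B`, `Q` any `p`-subgroup of `G`, are good, or if all sections
`S ≠ 1` of `D` are good; for example if `D` is abelian, if `p = 3` and `D` has exponent 3, or if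
`p = 2` and `D` has class at most 2, or an abelian subgroup of index at most 2, or exponent
dividing 4, or if `p = 2, 3` and no section of `D` has an element `y` with `y ^ q ≠ 1` (`q = 4` for
`p = 2`, `q = 3` for `p = 3`) that is conjugate in the section to all its powers `y ^ j` with `j`
congruent to 1 modulo `p`.

For all blocks `b` with a defect group `D` the alternating sum of the numbers `k(B_σ)` over the
classes of chains of nontrivial elementary abelian `p`-subgroups (Knörr and Robinson) is divisible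
by `p` if `D` is good, and by `p ^ (s + 1)` if the centre of `D` has an element whose
`p ^ s`-th power is not in `[D, D]`.
-/

namespace Pool.Agent.Results.MP_0c8ca5_al.Congruence

open Pool.Agent.Lib.P0c8ca5

universe u v

/-- `z` modulo `R` has order dividing `p` and is not the `q`-th power of an element `y` of `E / R`
conjugate in `E / R` to all `y ^ j` with `j` congruent to 1 modulo `p`. -/
def Rootless (p q : ℕ) {A : Type u} [Group A] (R E : Subgroup A) (z : A) : Prop :=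
  z ^ p ∈ R ∧ ∀ y ∈ E, z⁻¹ * y ^ q ∈ R →
    ¬ ∀ j : ℕ, j ≡ 1 [MOD p] → ∃ s ∈ E, s * y * s⁻¹ * (y ^ j)⁻¹ ∈ R

/-- The section `E / R` has a central element outside its commutator subgroup, or `p` is 2 or 3 and
it has a central element that is rootless. -/
def GoodSec (p : ℕ) {A : Type u} [Group A] (R E : Subgroup A) : Prop :=
  ∃ z ∈ E, (∀ x ∈ E, z * x * z⁻¹ * x⁻¹ ∈ R) ∧
    (z ∉ R ⊔ ⁅E, E⁆ ∨ (p = 2 ∧ Rootless 2 4 R E z) ∨ (p = 3 ∧ Rootless 3 3 R E z))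

/-- Every section `E / R ≠ 1` of `D` is good. -/
def GoodSecs (p : ℕ) {Γ : Type u} [Group Γ] (D : Subgroup Γ) : Prop :=
  ∀ R E : Subgroup Γ, R ≤ E → E ≤ D → E ≤ Subgroup.normalizer (R : Set Γ) → R ≠ E →
    GoodSec p R E

/-- For all `p`-subgroups `Q` of `G`, every nontrivial defect group `S` of a block of `N_G(Q) / Q`
below the image of `e` is good. -/
def GoodLocal (p : ℕ) {k : Type v} [Field k] {Γ : Type u} [Group Γ] (G : Subgroup Γ)
    (e : MonoidAlgebra k Γ) : Prop :=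
  ∀ Q : Subgroup Γ, Q ≤ G → IsPGroup p Q → ∀ f : MonoidAlgebra k (NQ Q), IsBlock (sec G Q) f →
    f * proj Q e = f → ∀ S : Subgroup (NQ Q), IsDefectGroup p (sec G Q) f S → S ≠ ⊥ →
      GoodSec p ⊥ S

/-- In every section `E / R` of `D` the elements `y` conjugate in `E / R` to all `y ^ j` with `j`
congruent to 1 modulo `p` satisfy `y ^ q = 1`. -/
def NoRational (p q : ℕ) {Γ : Type u} [Group Γ] (D : Subgroup Γ) : Prop :=
  ∀ R E : Subgroup Γ, R ≤ E → E ≤ D → E ≤ Subgroup.normalizer (R : Set Γ) → ∀ y ∈ E,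
    (∀ j : ℕ, j ≡ 1 [MOD p] → ∃ s ∈ E, s * y * s⁻¹ * (y ^ j)⁻¹ ∈ R) → y ^ q ∈ R

/-- The two sides of Navarro's equality for `N ⊴ H` and the block `e` of `N` are congruent
modulo `m`. -/
def NavarroMod (m p : ℕ) {k : Type v} [Field k] {Γ : Type u} [Group Γ] (N H : Subgroup Γ)
    (e : MonoidAlgebra k Γ) : Prop :=
  ∀ T : Finset (Subgroup Γ), (↑T ⊆ Theta p N H e) →
    (∀ Q ∈ Theta p N H e, ∃! Q', Q' ∈ T ∧ ∃ h ∈ H, Q' = Q.map (MulAut.conj h).toMonoidHom) →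
    Nat.card (Quotient (irrInvSetoid N H e)) ≡ ∑ Q ∈ T, Nat.card (DZ p H e Q) [MOD m]

/-- `σ` is a chain of nontrivial elementary abelian `p`-subgroups. -/
def ElChain (p : ℕ) {A : Type u} [Group A] (σ : Finset (Subgroup A)) : Prop :=
  (∀ Q ∈ σ, ∀ Q' ∈ σ, Q ≤ Q' ∨ Q' ≤ Q) ∧
    ∀ Q ∈ σ, Q ≠ ⊥ ∧ (∀ x ∈ Q, x ^ p = 1) ∧ ∀ x ∈ Q, ∀ y ∈ Q, x * y = y * x

/-- The dimension of the part of the centre of the group algebra of the stabilizer of `σ` cut out
by the Brauer image of `b`, the restriction of `b` to the elements centralizing all members of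
`σ`. -/
noncomputable def kB {k : Type v} [Field k] {A : Type u} [Group A] (σ : Finset (Subgroup A))
    (b : MonoidAlgebra k A) : ℕ :=
  Module.finrank k ↥(Id.ctr k (⨅ Q ∈ σ, Subgroup.normalizer (Q : Set A))
    (resS ((⨅ Q ∈ σ, Subgroup.centralizer (Q : Set A) : Subgroup A) : Set A) b))

/-- The sum of Knörr and Robinson for the block `b` is congruent to zero modulo `m`. -/
def KRMod (m p : ℕ) {k : Type v} [Field k] {A : Type u} [Group A] (b : MonoidAlgebra k A) : Prop :=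
  ∀ R : Finset (Finset (Subgroup A)), (∀ σ ∈ R, ElChain p σ) →
    (∀ τ : Finset (Subgroup A), ElChain p τ → ∃! σ, σ ∈ R ∧ ∃ g : A, (τ : Set (Subgroup A)) =
      (fun Q : Subgroup A => Q.map (MulAut.conj g).toMonoidHom) '' (σ : Set (Subgroup A))) →
    (m : ℤ) ∣ ∑ σ ∈ R, (-1) ^ σ.card * (kB σ b : ℤ)

theorem isChE_iff {p : ℕ} [Fact p.Prime] {A : Type u} [Group A] {σ : Finset (Subgroup A)} :
    Id.IsChE p σ ↔ ElChain p σ := by
  constructor
  · rintro ⟨⟨h1, h2⟩, h3⟩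
    exact ⟨fun Q hQ Q' hQ' => h1.total hQ hQ', fun Q hQ => ⟨(h2 Q hQ).2, (h3 Q hQ).2, (h3 Q hQ).1⟩⟩
  · rintro ⟨h1, h2⟩
    refine ⟨⟨fun Q hQ Q' hQ' _ => h1 Q hQ Q' hQ', fun Q hQ => ⟨?_, (h2 Q hQ).1⟩⟩,
      fun Q hQ => ⟨(h2 Q hQ).2.2, (h2 Q hQ).2.1⟩⟩
    intro x
    refine ⟨1, Subtype.ext ?_⟩
    rw [pow_one, Subgroup.coe_pow, (h2 Q hQ).2.1 x.1 x.2]
    rfl

theorem reps {p : ℕ} [Fact p.Prime] {A : Type u} [Group A] {R : Finset (Finset (Subgroup A))}
    (hR2 : ∀ τ : Finset (Subgroup A), ElChain p τ → ∃! σ, σ ∈ R ∧ ∃ g : A,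
      (τ : Set (Subgroup A)) =
        (fun Q : Subgroup A => Q.map (MulAut.conj g).toMonoidHom) '' (σ : Set (Subgroup A)))
    (τ : Finset (Subgroup A)) (hτ : Id.IsChE p τ) :
    ∃! σ, σ ∈ R ∧ ∃ g : A, τ = ChOrbAux.cgS g σ := by
  obtain ⟨σ, ⟨h1, g, h2⟩, h3⟩ := hR2 τ (isChE_iff.1 hτ)
  have key : ∀ (ρ : Finset (Subgroup A)) (g : A), (τ : Set (Subgroup A)) =
      (fun Q : Subgroup A => Q.map (MulAut.conj g).toMonoidHom) '' (ρ : Set (Subgroup A)) ↔
      τ = ChOrbAux.cgS g ρ := by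
    intro ρ g
    rw [← Finset.coe_inj]
    unfold ChOrbAux.cgS
    rw [Finset.coe_map]
    exact Iff.rfl
  exact ⟨σ, ⟨h1, g, (key σ g).1 h2⟩, fun ρ hρ => h3 ρ ⟨hρ.1, by
    obtain ⟨g', hg'⟩ := hρ.2
    exact ⟨g', (key ρ g').2 hg'⟩⟩⟩

theorem nroot_bot {p q : ℕ} {A : Type u} [Group A] {S : Subgroup A} {z : A}
    (h : Rootless p q ⊥ S z) : Id.NRoot p q S z := by
  refine ⟨Subgroup.mem_bot.1 h.1, fun y hy hyz hj => h.2 y hy ?_ fun j hj' => ?_⟩
  · rw [Subgroup.mem_bot, hyz, inv_mul_cancel]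
  · obtain ⟨s, hs, he⟩ := hj j hj'
    exact ⟨s, hs, by rw [Subgroup.mem_bot, he, mul_inv_cancel]⟩

theorem gc_bot {p : ℕ} {A : Type u} [Group A] {S : Subgroup A} (h : GoodSec p ⊥ S) :
    ∃ u ∈ S, (∀ x ∈ S, u * x = x * u) ∧ Id.Gc p S u := by
  obtain ⟨z, hz, hc, h⟩ := h
  refine ⟨z, hz, fun x hx => ?_, ?_⟩
  · have h1 := Subgroup.mem_bot.1 (hc x hx)
    rwa [mul_inv_eq_one, mul_inv_eq_iff_eq_mul] at h1
  · rcases h with h | ⟨h1, h2⟩ | ⟨h1, h2⟩
    · rw [bot_sup_eq] at h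
      exact Or.inl h
    · exact Or.inr (Or.inl ⟨h1, nroot_bot h2⟩)
    · exact Or.inr (Or.inr ⟨h1, nroot_bot h2⟩)

theorem congr {p : ℕ} [Fact p.Prime] {k : Type v}
    [Field k] [IsAlgClosed k] [CharP k p] {Γ : Type u} [Group Γ] [Finite Γ] (G : Subgroup Γ)
    [G.Normal] (hΓ : IsPGroup p (Γ ⧸ G)) {e : MonoidAlgebra k Γ} (he : IsBlock G e)
    (hinv : ∀ g x : Γ, e.coeff (g * x * g⁻¹) = e.coeff x) {D : Subgroup Γ}
    (hD : IsDefectGroup p G e D) (hno : GoodLocal p G e ∨ GoodSecs p D) :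
    NavarroMod p p G ⊤ e := by
  have : Fintype Γ := Fintype.ofFinite Γ
  have hinv' : InvBy ⊤ e := fun g _ x => hinv g x
  have hl : Id.LocGood' p G e := by
    rcases hno with hno | hno
    · exact fun Q h1 h2 f h3 h4 S h5 h6 => gc_bot (hno Q h1 h2 f h3 h4 S h5 h6)
    · exact Id.locGood_of_sec G he hD hno
  obtain ⟨t, ht⟩ := Id.gap_lb' G hΓ he hinv' hl
  intro T hT1 hT2
  have hp : ∀ x ∈ (⊤ : Subgroup Γ), ∃ n : ℕ, x ^ p ^ n ∈ G := by
    intro x _
    obtain ⟨n, hn⟩ := hΓ (QuotientGroup.mk x)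
    refine ⟨n, ?_⟩
    rwa [← QuotientGroup.mk_pow, QuotientGroup.eq_one_iff] at hn
  rw [gap_eq le_top (fun x _ => mem_norm_of_normal G x) hp he hinv' T hT1 hT2] at ht
  refine (Nat.modEq_iff_dvd.2 ⟨t, ?_⟩).symm
  have h3 : (((Nat.card (Quotient (irrInvSetoid G ⊤ e)) : ℤ)
    - ((∑ Q ∈ T, Nat.card (DZ p ⊤ e Q) : ℕ) : ℤ) : ℤ) : ℚ) = (((p : ℤ) * t : ℤ) : ℚ) := by
    push_cast at ht ⊢
    exact ht
  exact_mod_cast h3

/-- Navarro's equality modulo `p` if the local defect groups or the sections of the defect group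
are good, examples of groups with good sections, and the sum of Knörr and Robinson modulo `p` if
the defect group is good, modulo a power of `p` depending on the centre of the defect group. -/
theorem result (p : ℕ) [Fact p.Prime] (k : Type v) [Field k] [IsAlgClosed k] [CharP k p] :
    (∀ (Γ : Type u) [Group Γ] [Finite Γ] (G : Subgroup Γ) [G.Normal], IsPGroup p (Γ ⧸ G) →
      ∀ e : MonoidAlgebra k Γ, IsBlock G e →
      (∀ g x : Γ, e.coeff (g * x * g⁻¹) = e.coeff x) →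
      ∀ D : Subgroup Γ, IsDefectGroup p G e D → GoodLocal p G e ∨ GoodSecs p D →
      NavarroMod p p G ⊤ e) ∧
    (∀ (Γ : Type u) [Group Γ] [Finite Γ] (D : Subgroup Γ), IsPGroup p D →
      ((∀ x ∈ D, ∀ y ∈ D, x * y = y * x) ∨
        (∃ A ≤ D, ∃ b ∈ D, D ≤ A ⊔ Subgroup.zpowers b ∧ (∀ x ∈ A, ∀ y ∈ A, x * y = y * x) ∧
          ∃ s : ℕ, ∀ a ∈ A, b * a * b⁻¹ = a ^ (1 + p ^ s) ∧ a ^ p ^ (2 * s - 1) = 1) ∨
        (p = 3 ∧ NoRational 3 3 D) ∨ (p = 3 ∧ ∀ y ∈ D, y ^ 3 = 1) ∨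
        (p = 2 ∧ (NoRational 2 4 D ∨ (∀ y ∈ D, y ^ 4 = 1) ∨
          (∀ x ∈ D, ∀ y ∈ D, ∀ z ∈ D, x * y * x⁻¹ * y⁻¹ * z = z * (x * y * x⁻¹ * y⁻¹)) ∨
          (∃ A ≤ D, (∀ x ∈ A, ∀ y ∈ A, x * y = y * x) ∧ A.relIndex D ≤ 2)))) →
      GoodSecs p D) ∧
    (∀ (A : Type u) [Group A] [Finite A] (b : MonoidAlgebra k A), IsBlock (⊤ : Subgroup A) b →
      ∀ D : Subgroup A, IsDefectGroup p (⊤ : Subgroup A) b D →
      (GoodSec p ⊥ D → KRMod p p b) ∧
      ∀ s : ℕ, (∃ u ∈ D, (∀ x ∈ D, u * x = x * u) ∧ u ^ p ^ s ∉ ⁅D, D⁆) →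
        KRMod (p ^ (s + 1)) p b) := by
  refine ⟨fun Γ _ _ G _ hΓ e he hinv D hD hno => congr G hΓ he hinv hD hno, ?_, ?_⟩
  · intro Γ _ _ D hDp h
    rcases h with h | ⟨A, hA, b, hb, hg, hc, s, hs⟩ | ⟨rfl, h⟩ | ⟨rfl, h⟩ |
      ⟨rfl, h | h | h | ⟨A, hA, hc, hi⟩⟩
    · exact Id.secG_of_sg (Se.sg_comm h)
    · exact Id.secG_of_sg
        (Se.sg_pow hA hc hb hg (fun a ha => (hs a ha).1) (fun a ha => (hs a ha).2))
    · exact Id.secG_three hDp h
    · exact Id.secG_three hDp (noRat_exp h)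
    · exact Id.secG_two hDp h
    · exact Id.secG_two hDp (noRat_exp h)
    · exact Id.secG_two hDp (noRat_class_two hDp h)
    · exact Id.secG_two hDp (noRat_index_two hDp hA hc hi)
  · intro A _ _ b hb D hD
    have : Fintype A := Fintype.ofFinite A
    refine ⟨fun h => ?_, fun s ⟨u, hu, huc, hu'⟩ => ?_⟩
    · obtain ⟨u, hu, huc, hu'⟩ := gc_bot h
      exact fun R hR1 hR2 =>
        Id.krs' hb hD hu huc hu' R (fun σ hσ => isChE_iff.2 (hR1 σ hσ)) (reps hR2)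
    · exact fun R hR1 hR2 =>
        Kp.krsp hb hD hu huc hu' R (fun σ hσ => isChE_iff.2 (hR1 σ hσ)) (reps hR2)

end Pool.Agent.Results.MP_0c8ca5_al.Congruence
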