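import Mathlib
import Pool.Agent.Lib.P0c8ca5Y.MixY
import Pool.Agent.Lib.P0c8ca5W.VacR5

/-!
# Navarro's equality when the local defect is cyclic in the simple sections

`G` is a normal subgroup of the finite group `Γ`, `Γ / G` is a `p`-group, `e` is the block idempotent
of a `Γ`-invariant block `B` of `G` (it is a block idempotent of `Γ` as well).  The defect groups `E`
below are those of the block `e` of `Γ`; the groups `E ∩ G` are the defect groups of `B`.  `Q` is
radical if `Q = O_p(N_Γ(Q))`.  We say that `E` is small in `K` if `K` has a normal subgroup `M` such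
that `K / M` is `p`-solvable and for every nonabelian simple section `T = f(J)` of `K` (`J ≤ K`) the image
`f(J ∩ E ∩ M)` is cyclic.  This holds for example if `(E ∩ M) S / S` is cyclic for some `p`-solvable
normal subgroup `S` of `K`, or if the nonabelian composition factors of `K` have cyclic Sylow
`p`-subgroups.

1. Navarro's equality holds for `(G, Γ, B)` if for every radical `p`-subgroup `Q` of `Γ` with `G Q = Γ`
   every defect group `E ≥ Q` is small in `N_G(Q)`.
2. In particular it holds if some defect group `E` is small in `G`; for `Γ = G` this is the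
   blockwise Alperin weight conjecture for all blocks of `G` whose defect groups are small in `G`.
3. It holds as well if for one defect group `E` and some `p`-solvable normal subgroup `V ≤ G` of
   `Γ`, with `Ē = E V / V` and `Ē₀ = Ē ∩ G / V`,
   * all subgroups of `Ē` can be generated by `d + 1` elements, where `d` is the least number of
     generators of `Γ / G`, or
   * `G ≠ Γ` and `Ē` is metacyclic, or
   * for all radical `Q ≤ E` with `G Q = Γ` the group `E` is small in `N_G(Q)`, or for all `T ≤ Q`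
     with `G T = Γ` the fixed points of `T` on `Ē₀` form a cyclic group or the centralizer of
     `T V / V` in `G / V` is `p`-nilpotent, or
   * `Ē₀` is abelian and the fixed points of `Ē` on `Ē₀` form a cyclic group.

The blockwise Alperin weight conjecture is not assumed.
-/

namespace Pool.Agent.Results.MP_0c8ca5_al.CyclicLocalDefect

open Pool.Agent.Lib.P0c8ca5

universe u v

/-- `Q = O_p(N(Q))`: the `p`-group `Q` contains all normal `p`-subgroups of its normalizer. -/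
def IsRadical (p : ℕ) {Γ : Type*} [Group Γ] (Q : Subgroup Γ) : Prop :=
  IsPGroup p Q ∧ ∀ R : Subgroup Γ, IsPGroup p R → R ≤ Subgroup.normalizer (Q : Set Γ) →
    Subgroup.normalizer (Q : Set Γ) ≤ Subgroup.normalizer (R : Set Γ) → R ≤ Q

/-- `K` has a normal subgroup `M` such that `K / M` is `p`-solvable and the image of `E ∩ M` in every
nonabelian simple section of `K` is cyclic. -/
def Small (p : ℕ) {Γ : Type u} [Group Γ] (K E : Subgroup Γ) : Prop :=
  ∃ M : Subgroup Γ, M ≤ K ∧ (∀ h ∈ K, ∀ x ∈ M, h * x * h⁻¹ ∈ M) ∧ Ps.PSolv p ↥(sec K M) ∧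
    ∀ (T : Type u) [Group T] [IsSimpleGroup T], (∃ x y : T, x * y ≠ y * x) →
      ∀ (J : Subgroup Γ) (f : ↥J →* T), J ≤ K → Function.Surjective f →
        IsCyclic ↥(((E ⊓ M).subgroupOf J).map f)

theorem le_norm {Γ : Type*} [Group Γ] {M H : Subgroup Γ}
    (h : ∀ g ∈ H, ∀ x ∈ M, g * x * g⁻¹ ∈ M) : H ≤ Subgroup.normalizer (M : Set Γ) := by
  intro g hg
  rw [Subgroup.mem_normalizer_iff]
  intro x
  refine ⟨h g hg x, fun hx => ?_⟩
  have h1 := h g⁻¹ (H.inv_mem hg) _ hx
  have e1 : g⁻¹ * (g * x * g⁻¹) * g⁻¹⁻¹ = x := by group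
  rwa [e1] at h1

theorem Small.simRel {p : ℕ} {Γ : Type u} [Group Γ] {K E : Subgroup Γ}
    (h : Small p K E) : Vc.SimRel p K E := by
  obtain ⟨M, h1, h2, h3, h4⟩ := h
  refine ⟨M, h1, le_norm h2, h3, fun T _ _ hT P hP _ => ?_⟩
  obtain ⟨J, f, hf, hP⟩ := hP
  let κ : ↥(J.map K.subtype) ≃* ↥J := (J.equivMapOfInjective _ K.subtype_injective).symm
  have hJK : J.map K.subtype ≤ K := by
    rintro _ ⟨x, _, rfl⟩
    exact x.2
  have h5 := h4 T hT (J.map K.subtype) (f.comp κ.toMonoidHom) hJK (hf.comp κ.surjective)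
  refine Ps.cyc_of_le (hP.trans ?_) h5
  rintro _ ⟨j, hj, rfl⟩
  have h7 := Subgroup.mem_subgroupOf.1 (Subgroup.mem_subgroupOf.1 hj)
  refine ⟨κ.symm j, Subgroup.mem_subgroupOf.2 h7, ?_⟩
  change f (κ (κ.symm j)) = f j
  rw [κ.apply_symm_apply]

theorem isRadical_of {p : ℕ} {Γ : Type*} [Group Γ] {Q : Subgroup Γ} (hQ : IsPGroup p Q)
    (h : Ps.Radical p ⊤ Q) : IsRadical p Q :=
  ⟨hQ, fun R h1 h2 h3 => h R h1 (by rwa [top_inf_eq]) (by rwa [top_inf_eq])⟩

theorem result {p : ℕ} [Fact p.Prime] {k : Type v} [Field k] [IsAlgClosed k] [CharP k p]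
    {Γ : Type u} [Group Γ] [Finite Γ] (G : Subgroup Γ) [hG : G.Normal] (hΓ : IsPGroup p (Γ ⧸ G))
    (e : MonoidAlgebra k Γ) (he : IsBlock G e)
    (hinv : ∀ g x : Γ, e.coeff (g * x * g⁻¹) = e.coeff x) :
    ((∀ Q : Subgroup Γ, IsRadical p Q → G ⊔ Q = ⊤ →
        ∀ E : Subgroup Γ, IsDefectGroup p ⊤ e E → Q ≤ E →
          Small p (G ⊓ Subgroup.normalizer (Q : Set Γ)) E) →
      NavarroEq p G ⊤ e) ∧
    ∀ E : Subgroup Γ, IsDefectGroup p ⊤ e E →
      (Small p G E → NavarroEq p G ⊤ e) ∧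
      ∀ (V : Subgroup Γ) [V.Normal], Ps.PSolv p ↥V → V ≤ G →
      let π : Γ →* Γ ⧸ V := QuotientGroup.mk' V
      ((∀ N : Subgroup Γ, N ≤ E → Group.rank ↥(N.map π) ≤ Group.rank (Γ ⧸ G) + 1) ∨
        (G ≠ ⊤ ∧ ∃ u v : Γ ⧸ V, v ∈ Subgroup.normalizer (Subgroup.zpowers u : Set (Γ ⧸ V)) ∧
          E.map π = Subgroup.zpowers u ⊔ Subgroup.zpowers v) ∨
        (∀ Q : Subgroup Γ, Q ≤ E → IsRadical p Q → G ⊔ Q = ⊤ →
          Small p (G ⊓ Subgroup.normalizer (Q : Set Γ)) E ∨
          ∀ T : Subgroup Γ, T ≤ Q → G ⊔ T = ⊤ →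
            IsCyclic ↥(E.map π ⊓ G.map π ⊓ Subgroup.centralizer (T.map π : Set (Γ ⧸ V))) ∨
            ¬ p ∣ Nat.card ↥(Subgroup.closure {x : Γ ⧸ V | x ∈ G.map π ∧
              x ∈ Subgroup.centralizer (T.map π : Set (Γ ⧸ V)) ∧ ¬ p ∣ orderOf x})) ∨
        ((∀ x ∈ E.map π ⊓ G.map π, ∀ y ∈ E.map π ⊓ G.map π, x * y = y * x) ∧
          IsCyclic ↥(E.map π ⊓ G.map π ⊓
            Subgroup.centralizer (E.map π : Set (Γ ⧸ V))))) →
      NavarroEq p G ⊤ e := by
  have : Fintype Γ := Fintype.ofFinite Γ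
  have hinv' : InvBy ⊤ e := fun g _ x => hinv g x
  have hp' : ∀ x : Γ, ∃ n : ℕ, x ^ p ^ n ∈ G := by
    intro x
    obtain ⟨n, hn⟩ := hΓ (QuotientGroup.mk x)
    refine ⟨n, ?_⟩
    rwa [← QuotientGroup.mk_pow, QuotientGroup.eq_one_iff] at hn
  have hbot : Ps.PSolv p ↥(⊥ : Subgroup Γ) :=
    ⟨0, fun _ => ⊥, rfl, Subsingleton.elim _ _, fun _ => inferInstance,
      fun i hi => absurd hi (Nat.not_lt_zero i)⟩
  have hcgT : ∀ (x : Γ) (S : Subgroup Γ), G ⊔ S = ⊤ → G ⊔ cg x S = ⊤ := by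
    intro x S hS
    have h3 := congrArg (cg x) hS
    rwa [cg_sup, cg_normal, cg_of_mem (Subgroup.mem_top _)] at h3
  refine ⟨fun h => ?_, fun E hE => ⟨fun h => ?_, fun V hV hVs hVG h => ?_⟩⟩
  · apply Vc.navarro_S5_rel hG le_top hp' he hinv'
    intro Q _ hQp hGQ hrad E hE hQE
    exact Or.inr (h Q (isRadical_of hQp hrad) hGQ E hE hQE).simRel
  · refine Vc.navarro_mixS5 (V := ⊥) hp' he hinv' hE hbot bot_le le_top
      (fun _ => True) (fun _ _ _ => trivial) (fun _ _ => trivial) ?_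
    intro Q _ _ _
    exact Or.inl (Or.inr (h.simRel.mono inf_le_left))
  · rcases h with h | ⟨h1, h2⟩ | h | ⟨h1, h2⟩
    · exact Ps.navarro_rankW hΓ hp' he hinv' hE hVs hVG h
    · exact Ps.navarro_rankW hΓ hp' he hinv' hE hVs hVG (Ps.rank_metaV h1 h2)
    · refine Vc.navarro_mixS5 hp' he hinv' hE hVs hVG le_top (fun S => G ⊔ S = ⊤) hcgT
        (fun S hS => hS) ?_
      intro Q hQE hGQ hrad
      rw [hGQ] at hrad
      rcases h Q hQE (isRadical_of (hE.isPGroup.to_le hQE) hrad) hGQ with h3 | h3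
      · exact Or.inl (Or.inr h3.simRel)
      · exact Or.inr (fun S hS hGS => h3 S hS (hGS.trans hGQ))
    · exact Ps.navarro_abW hp' he hinv' hE hVs hVG h1 h2

end Pool.Agent.Results.MP_0c8ca5_al.CyclicLocalDefect
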