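import Mathlib
import Pool.Agent.Lib.P0c8ca5V.RelQ
import Pool.Agent.Lib.P0c8ca5V.GapM
import Pool.Agent.Lib.P0c8ca5V.GapT
import Pool.Agent.Lib.P0c8ca5Rc.Cnt1
import Pool.Agent.Lib.P0c8ca5Rc.CntF

/-!
# Navarro's conjecture as a divisibility property of numbers of tuples of group elements

Let `p` be a prime and `C` a class of groups closed under subgroups and quotients. Navarro's
equality holds modulo `p` for all `(Γ, G, B)` with `Γ` in `C` if and only if, for every finite group
`G` in `C` without nontrivial normal `p`-subgroups and every element `d` of order prime to `p`, the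
number of the `G`-classes of the following tuples, which generate a subgroup containing all elements
of order prime to `p`, is divisible by `p`:
* pairs `(a, b)` with `[a, b] = u d'`, `u` of order `p` commuting with the conjugate `d'` of `d` and
  contained in the commutator subgroup of the centralizer of `u d'`;
* triples `(a, b, c)` with `c` of order `p` and `[a, b] c` conjugate to `d`;
* `p = 2`: pairs `(x, y)` of elements of order 2 and 4 with `x y = u d'`, `u` of order 8; or
  quintuples of involutions with product conjugate to `d`;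
* `p = 3`: pairs `(x, y)` of elements of order 3 with `x y = u d'`, `u` of order 9; or quadruples of
  elements of order 3 with product conjugate to `d`.
If `C` is also closed under wreath products with the cyclic group of order `p` (for example if `C` is
the class of all groups), then each of these conditions is equivalent to Navarro's conjecture for the
groups in `C`, and it is enough to consider the elements `d` that are conjugate to `d ^ j` for all
`j` whose order modulo the order of `d` is a power of `p`. For every `h > 1` with `p - 1` dividing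
`2 (h - 1)` another equivalent condition is that the numbers of the classes of `h` pairs and of one pair
with product of the commutators conjugate to `d` are congruent modulo `p`.
-/

namespace Pool.Agent.Results.MP_0c8ca5_al.DivisibilityCriterion

open Pool.Agent.Lib.P0c8ca5

universe u v

/-- The class `C` of groups is closed under subgroups and quotients (and isomorphisms). -/
structure SectionClosed (C : ∀ (G : Type u) [Group G], Prop) : Prop where
  sub : ∀ (G H : Type u) [Group G] [Group H] (f : H →* G), Function.Injective f → C G → C H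
  quo : ∀ (G H : Type u) [Group G] [Group H] (f : G →* H), Function.Surjective f → C G → C H

/-- The class `C` is closed under wreath products with the cyclic group of order `p`. -/
def WreathClosed (p : ℕ) (C : ∀ (G : Type u) [Group G], Prop) : Prop :=
  ∀ (G : Type u) [Group G], C G → C (RegularWreathProduct G (Multiplicative (ZMod p)))

/-- Navarro's conjecture at `p` for the groups `Γ` in the class `C` (blocks over `k`). -/
def Q1 (C : ∀ (G : Type u) [Group G], Prop) (p : ℕ) (k : Type v) [Field k] : Prop :=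
  ∀ (Γ : Type u) [Group Γ] [Finite Γ], C Γ → ∀ (G : Subgroup Γ) [G.Normal],
    IsPGroup p (Γ ⧸ G) → ∀ e : MonoidAlgebra k Γ, IsBlock G e →
    (∀ g x : Γ, e.coeff (g * x * g⁻¹) = e.coeff x) → NavarroEq p G ⊤ e

/-- The two sides of Navarro's equality for `N ⊴ H` and the block `e` of `N` are congruent
modulo `m`. -/
def NavarroMod (m p : ℕ) {k : Type v} [Field k] {Γ : Type u} [Group Γ] (N H : Subgroup Γ)
    (e : MonoidAlgebra k Γ) : Prop :=
  ∀ T : Finset (Subgroup Γ), (↑T ⊆ Theta p N H e) →
    (∀ Q ∈ Theta p N H e, ∃! Q', Q' ∈ T ∧ ∃ h ∈ H, Q' = Q.map (MulAut.conj h).toMonoidHom) →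
    Nat.card (Quotient (irrInvSetoid N H e)) ≡ ∑ Q ∈ T, Nat.card (DZ p H e Q) [MOD m]

/-- Navarro's equality modulo `p` for the groups `Γ` in the class `C`. -/
def Q1Mod (C : ∀ (G : Type u) [Group G], Prop) (p : ℕ) (k : Type v) [Field k] : Prop :=
  ∀ (Γ : Type u) [Group Γ] [Finite Γ], C Γ → ∀ (G : Subgroup Γ) [G.Normal],
    IsPGroup p (Γ ⧸ G) → ∀ e : MonoidAlgebra k Γ, IsBlock G e →
    (∀ g x : Γ, e.coeff (g * x * g⁻¹) = e.coeff x) → NavarroMod p p G ⊤ e

/-- `G` has no nontrivial normal `p`-subgroup. -/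
def Reduced (p : ℕ) (G : Type u) [Group G] : Prop :=
  ∀ N : Subgroup G, N.Normal → IsPGroup p N → N = ⊥

/-- `d` is conjugate to `d ^ j` for all `j` whose order modulo the order of `d` is a power of `p`. -/
def Rational (p : ℕ) {G : Type u} [Group G] (d : G) : Prop :=
  ∀ j : ℕ, (∃ n : ℕ, j ^ p ^ n ≡ 1 [MOD orderOf d]) → IsConj d (d ^ j)

/-- All elements of `G` of order prime to `p` lie in the subgroup generated by the tuple `t`. -/
def GenReg (p : ℕ) {G : Type u} [Group G] {n : ℕ} (t : Fin n → G) : Prop :=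
  ∀ y : G, ¬ p ∣ orderOf y → y ∈ Subgroup.closure (Set.range t)

/-- `z = u d'` with commuting elements `u` of order `q` and `d'` conjugate to `d`. -/
def HasType (q : ℕ) {G : Type u} [Group G] (d z : G) : Prop :=
  ∃ u d' : G, orderOf u = q ∧ Commute u d' ∧ IsConj d d' ∧ z = u * d'

/-- `z` has type `(q, d)`, and `u` lies in the commutator subgroup of the centralizer of `z`. -/
def FocalType (q : ℕ) {G : Type u} [Group G] (d z : G) : Prop :=
  ∃ u d' : G, orderOf u = q ∧ Commute u d' ∧ IsConj d d' ∧ z = u * d' ∧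
    u ∈ ⁅Subgroup.centralizer ({z} : Set G), Subgroup.centralizer ({z} : Set G)⁆

/-- Pairs `(a, b)` with commutator of this type `(p, d)`. -/
def CommutatorPairs (p : ℕ) (G : Type u) [Group G] (d : G) (t : Fin 2 → G) : Prop :=
  FocalType p d (t 0 * t 1 * (t 0)⁻¹ * (t 1)⁻¹) ∧ GenReg p t

/-- Triples `(a, b, c)` with `c` of order `p` and `[a, b] c` conjugate to `d`. -/
def Triples (p : ℕ) (G : Type u) [Group G] (d : G) (t : Fin 3 → G) : Prop :=
  orderOf (t 2) = p ∧ IsConj d (t 0 * t 1 * (t 0)⁻¹ * (t 1)⁻¹ * t 2) ∧ GenReg p t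

/-- Pairs `(x, y)` of elements of order `a` and `b` with product of type `(q, d)`. -/
def ProductPairs (p a b q : ℕ) (G : Type u) [Group G] (d : G) (t : Fin 2 → G) : Prop :=
  orderOf (t 0) = a ∧ orderOf (t 1) = b ∧ HasType q d (t 0 * t 1) ∧ GenReg p t

/-- `n`-tuples of elements of order `p` with product conjugate to `d`. -/
def Tuples (p n : ℕ) (G : Type u) [Group G] (d : G) (t : Fin n → G) : Prop :=
  (∀ i, orderOf (t i) = p) ∧ IsConj d (List.ofFn t).prod ∧ GenReg p t

/-- `h` pairs (the entries `i` and `h + i`) with product of their commutators conjugate to `d`. -/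
def Surface (p h : ℕ) (G : Type u) [Group G] (d : G) (t : Fin (h + h) → G) : Prop :=
  IsConj d (List.ofFn fun i : Fin h => t (Fin.castAdd h i) * t (Fin.natAdd h i) *
    (t (Fin.castAdd h i))⁻¹ * (t (Fin.natAdd h i))⁻¹).prod ∧ GenReg p t

/-- The number of the classes, under simultaneous conjugation, of the tuples with the property
`S`. -/
noncomputable def numClasses {G : Type u} [Group G] {n : ℕ} (S : (Fin n → G) → Prop) : ℕ :=
  Nat.card (Quot fun t t' : {t : Fin n → G // S t} => ∃ g : G, ∀ i, t'.1 i = g * t.1 i * g⁻¹)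

/-- `p` divides the numbers of classes, for all finite groups `G` in `C` without nontrivial normal
`p`-subgroups and all elements `d` of order prime to `p`. -/
def AllDivisible (C : ∀ (G : Type u) [Group G], Prop) (p : ℕ) {n : ℕ}
    (S : ∀ (G : Type u) [Group G], G → (Fin n → G) → Prop) : Prop :=
  ∀ (G : Type u) [Group G] [Finite G], C G → Reduced p G → ∀ d : G, ¬ p ∣ orderOf d →
    p ∣ numClasses (S G d)

/-- The same for the rational elements `d` only. -/
def RationalDivisible (C : ∀ (G : Type u) [Group G], Prop) (p : ℕ) {n : ℕ}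
    (S : ∀ (G : Type u) [Group G], G → (Fin n → G) → Prop) : Prop :=
  ∀ (G : Type u) [Group G] [Finite G], C G → Reduced p G → ∀ d : G, ¬ p ∣ orderOf d →
    Rational p d → p ∣ numClasses (S G d)

/-- The numbers for `h` pairs and for one pair are congruent modulo `p`. -/
def Genus (C : ∀ (G : Type u) [Group G], Prop) (p h : ℕ) : Prop :=
  ∀ (G : Type u) [Group G] [Finite G], C G → Reduced p G → ∀ d : G, ¬ p ∣ orderOf d →
    numClasses (Surface p h G d) ≡ numClasses (Surface p 1 G d) [MOD p]

/-- The same for the rational elements `d` only. -/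
def RationalGenus (C : ∀ (G : Type u) [Group G], Prop) (p h : ℕ) : Prop :=
  ∀ (G : Type u) [Group G] [Finite G], C G → Reduced p G → ∀ d : G, ¬ p ∣ orderOf d →
    Rational p d → numClasses (Surface p h G d) ≡ numClasses (Surface p 1 G d) [MOD p]

/-- The numbers for `S` decide about Navarro's equality modulo `p` inside `C` and, if `C` is closed
under wreath products with the cyclic group of order `p`, about Navarro's conjecture inside `C`;
then the rational elements suffice. -/
def Criterion (C : ∀ (G : Type u) [Group G], Prop) (p : ℕ) (k : Type v) [Field k] {n : ℕ}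
    (S : ∀ (G : Type u) [Group G], G → (Fin n → G) → Prop) : Prop :=
  (Q1Mod C p k ↔ AllDivisible C p S) ∧
  (WreathClosed p C → (Q1 C p k ↔ AllDivisible C p S) ∧ (Q1 C p k ↔ RationalDivisible C p S))

theorem nop_iff {p : ℕ} {G : Type u} [Group G] : Reduced p G ↔ NoP p (⊤ : Subgroup G) := by
  constructor
  · intro h R _ hR hp
    refine h R ?_ hp
    exact Subgroup.normalizer_eq_top_iff.1 (top_le_iff.1 hR)
  · intro h N hN hp
    refine h N le_top ?_ hp
    rw [Subgroup.normalizer_eq_top_iff.2 hN]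

theorem navarroMod_iff {m p : ℕ} [Fact p.Prime] {k : Type v} [Field k] [IsAlgClosed k]
    [CharP k p] {Γ : Type u} [Group Γ] [Finite Γ] {G : Subgroup Γ} [G.Normal]
    (hΓ : IsPGroup p (Γ ⧸ G)) {e : MonoidAlgebra k Γ} (he : IsBlock G e) (hinv : InvBy ⊤ e) :
    NavarroMod m p G ⊤ e ↔ ∃ t : ℤ, gap p G ⊤ e = (m : ℚ) * t := by
  have : Fintype Γ := Fintype.ofFinite Γ
  have hp : ∀ x ∈ (⊤ : Subgroup Γ), ∃ n : ℕ, x ^ p ^ n ∈ G := by
    intro x _
    obtain ⟨n, hn⟩ := hΓ (QuotientGroup.mk x)
    refine ⟨n, ?_⟩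
    rwa [← QuotientGroup.mk_pow, QuotientGroup.eq_one_iff] at hn
  have hN : (⊤ : Subgroup Γ) ≤ Subgroup.normalizer (G : Set Γ) :=
    fun x _ => mem_norm_of_normal G x
  constructor
  · intro h
    obtain ⟨T, hT1, hT2⟩ := exists_transversal (⊤ : Subgroup Γ) (Theta p G ⊤ e)
    have h1 := h T hT1 hT2
    obtain ⟨t, ht⟩ := (Nat.modEq_iff_dvd.1 h1.symm)
    refine ⟨t, ?_⟩
    rw [gap_eq le_top hN hp he hinv T hT1 hT2]
    have h2 := congrArg (fun z : ℤ => (z : ℚ)) ht
    push_cast at h2 ⊢
    exact h2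
  · rintro ⟨t, ht⟩ T hT1 hT2
    rw [gap_eq le_top hN hp he hinv T hT1 hT2] at ht
    refine (Nat.modEq_iff_dvd.2 ⟨t, ?_⟩).symm
    have h3 : (((Nat.card (Quotient (irrInvSetoid G ⊤ e)) : ℤ)
      - ((∑ Q ∈ T, Nat.card (DZ p ⊤ e Q) : ℕ) : ℤ) : ℤ) : ℚ) = (((m : ℤ) * t : ℤ) : ℚ) := by
      push_cast at ht ⊢
      exact ht
    exact_mod_cast h3

section
variable {C : ∀ (G : Type u) [Group G], Prop} {p : ℕ} [Fact p.Prime] {k : Type v} [Field k]
  [IsAlgClosed k] [CharP k p]

theorem congruence_iff (hC : SectionClosed C) : Q1Mod C p k ↔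
    ∀ (G : Type u) [Group G] [Finite G], C G → ∀ (b : MonoidAlgebra k G),
      IsBlock (⊤ : Subgroup G) b → ∃ t : ℤ, gap p (⊤ : Subgroup G) ⊤ b = (p : ℚ) * t := by
  constructor
  · intro h G _ _ hG e he
    have hq : IsPGroup p (G ⧸ (⊤ : Subgroup G)) := by
      intro x
      obtain ⟨g, rfl⟩ := QuotientGroup.mk_surjective x
      refine ⟨0, ?_⟩
      rw [pow_zero, pow_one]
      exact (QuotientGroup.eq_one_iff g).2 (Subgroup.mem_top g)
    exact (navarroMod_iff hq he he.invBy).1
      (h G hG ⊤ hq e he (fun g x => he.invBy g (Subgroup.mem_top g) x))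
  · intro h Γ _ _ hG G _ hΓ e he hinv
    refine (navarroMod_iff hΓ he (fun g _ x => hinv g x)).2 ?_
    obtain ⟨t, ht⟩ := gap_mod hΓ he (fun g _ x => hinv g x)
    obtain ⟨t', ht'⟩ := h ↥G (hC.sub Γ ↥G G.subtype G.subtype_injective hG) (dn G e)
      (dn_isBlock he)
    rw [gap_transport he] at ht'
    refine ⟨t + t', ?_⟩
    rw [ht, ht']
    push_cast
    ring

theorem q1_iff (hC : SectionClosed C) (hW : WreathClosed p C) :
    Q1 C p k ↔ Q1Mod C p k := by
  rw [congruence_iff hC]
  constructor
  · intro h G _ _ hG e he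
    exact ⟨0, by rw [(q1C ⟨hC.sub, hC.quo⟩).1 h G hG e he]; simp⟩
  · intro h
    exact (q1C ⟨hC.sub, hC.quo⟩).2 (ampC hW h)

theorem wc_iff (hC : SectionClosed C) : Q1Mod C p k ↔ Rc.WC C p k := congruence_iff hC

theorem all_iff {n : ℕ} {S : ∀ (G : Type u) [Group G], G → (Fin n → G) → Prop} :
    AllDivisible C p S ↔ Rc.DvS C p S := by
  constructor
  · intro h G _ _ hG hr d hd
    exact h G hG (nop_iff.2 hr) d hd
  · intro h G _ _ hG hr d hd
    exact h G hG (nop_iff.1 hr) d hd

theorem rat_iff {n : ℕ} {S : ∀ (G : Type u) [Group G], G → (Fin n → G) → Prop} :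
    RationalDivisible C p S ↔ Rc.DvR C p S := by
  constructor
  · intro h G _ _ hG hr d hd
    exact h G hG (nop_iff.2 hr) d hd
  · intro h G _ _ hG hr d hd
    exact h G hG (nop_iff.1 hr) d hd

theorem criterion_of (hC : SectionClosed C) {n : ℕ}
    {S : ∀ (G : Type u) [Group G], G → (Fin n → G) → Prop}
    (h1 : Rc.WC C p k ↔ Rc.DvS C p S)
    (h2 : (∀ (G : Type u) [Group G], C G → C (Wr.WG p G)) → (Rc.WC C p k ↔ Rc.DvR C p S)) :
    Criterion C p k S := by
  refine ⟨?_, fun hW => ⟨?_, ?_⟩⟩
  · rw [wc_iff hC, all_iff, h1]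
  · rw [q1_iff hC hW, wc_iff hC, all_iff, h1]
  · rw [q1_iff hC hW, wc_iff hC, rat_iff, h2 hW]

end

theorem result {p : ℕ} [Fact p.Prime] {k : Type v} [Field k] [IsAlgClosed k] [CharP k p]
    {C : ∀ (G : Type u) [Group G], Prop} (hC : SectionClosed C) :
    Criterion C p k (CommutatorPairs p) ∧ Criterion C p k (Triples p) ∧
    (p = 2 → Criterion C 2 k (ProductPairs 2 2 4 8) ∧ Criterion C 2 k (Tuples 2 5)) ∧
    (p = 3 → Criterion C 3 k (ProductPairs 3 3 3 9) ∧ Criterion C 3 k (Tuples 3 4)) ∧
    (∀ h : ℕ, 1 < h → p - 1 ∣ 2 * (h - 1) →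
      (Q1Mod C p k ↔ Genus C p h) ∧
      (WreathClosed p C →
        (Q1 C p k ↔ Genus C p h) ∧ (Q1 C p k ↔ RationalGenus C p h))) := by
  have hC' : SecCl C := ⟨hC.sub, hC.quo⟩
  refine ⟨criterion_of hC (Rc.wc_CPF hC') (fun hW => Rc.wr_CPF hC' hW),
    criterion_of hC (Rc.wc_1 hC') (fun hW => Rc.wr_1 hC' hW), ?_, ?_, ?_⟩
  · rintro rfl
    exact ⟨criterion_of hC (Rc.wc_T2 hC') (fun hW => Rc.wr_T2 hC' hW),
      criterion_of hC (Rc.wc_N2 hC') (fun hW => Rc.wr_N2 hC' hW)⟩
  · rintro rfl
    exact ⟨criterion_of hC (Rc.wc_T3 hC') (fun hW => Rc.wr_T3 hC' hW),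
      criterion_of hC (Rc.wc_N3 hC') (fun hW => Rc.wr_N3 hC' hW)⟩
  · intro h h1 hp
    obtain ⟨j, rfl⟩ : ∃ j, h = j + 1 := ⟨h - 1, by omega⟩
    have key : Q1Mod C p k ↔ Genus C p (j + 1) := by
      rw [wc_iff hC, Rc.wc_H hC' (j := j) (by omega) hp]
      constructor
      · intro H G _ _ hG hr d hd
        exact H G hG (nop_iff.1 hr) d hd
      · intro H G _ _ hG hr d hd
        exact H G hG (nop_iff.2 hr) d hd
    refine ⟨key, fun hW => ⟨(q1_iff hC hW).trans key, ?_⟩⟩
    rw [q1_iff hC hW, wc_iff hC, Rc.wr_H hC' hW (j := j) (by omega) hp]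
    constructor
    · intro H G _ _ hG hr d hd hq
      exact H G hG (nop_iff.1 hr) d hd hq
    · intro H G _ _ hG hr d hd hq
      exact H G hG (nop_iff.2 hr) d hd hq

end Pool.Agent.Results.MP_0c8ca5_al.DivisibilityCriterion
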