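import Mathlib
import Pool.Agent.Lib.P0c8ca5E.SmallG
import Pool.Agent.Lib.P0c8ca5.WtEquiv
import Pool.Agent.Lib.P0c8ca5N.TrC
import Pool.Agent.Lib.P0c8ca5C.EqC
import Pool.Agent.Lib.P0c8ca5Y.MixY
import Pool.Agent.Lib.P0c8ca5W.VacR5

/-!
# The weight conjecture and its equivariant form for `p`-hypoelementary groups of automorphisms

`G` is a normal subgroup of the finite group `X`, and `e` is the block idempotent of an
`X`-invariant block `B` of `G`.  The factor group `X / G` is arbitrary in 1, 2 and 3.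

1. Assume that the blockwise Alperin weight conjecture holds for the blocks of the subgroups of `G⟨t⟩`,
   where `t` is a `p`-regular element of `X`, whose defect groups are contained in defect groups of `B`.
   Let `G ≤ H ≤ X`.
   * The numbers of orbits of `H` on the irreducible Brauer characters of `B` and on the `G`-classes
     of `B`-weights are equal.
   * If `H / G` is `p`-hypoelementary, that is, an extension of a `p`-group by a cyclic group, then there
     is an `H`-equivariant bijection between the irreducible Brauer characters of `B` and the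
     `G`-classes of `B`-weights.
2. The assumption in 1 holds, unconditionally, if a defect group `D` of `B` is small in `G`.
   We say that `E` is small in `K` if `K` has a normal
   subgroup `M` such that `K / M` is `p`-solvable and for every nonabelian simple section `T = f(J)`
   of `K` (`J ≤ K`) the image `f(J ∩ E ∩ M)` is cyclic; for example if `(E ∩ M) S / S` is cyclic for
   some `p`-solvable normal subgroup `S` of `K`, or if the nonabelian composition factors of `K` have
   cyclic Sylow `p`-subgroups.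
3. For every prime `p` the following are equivalent: the blockwise Alperin weight conjecture for all
   finite groups; Navarro's equality for all `(G, X, B)` with `X / G` a `p`-group; the existence of the
   bijections in 1 for all `(G, X, B)`; the equality of the numbers of orbits in 1 for all `(G, X, B)`.

In the rest `X / G` is a `p`-group; then `e` is a block idempotent of `X` as well.

4. The following are equivalent: Navarro's equality holds for `(G, H, B)` for all `H` between `G` and
   `X`; it holds for all `(N, H, b)` with `G ≤ N ⊴ H ≤ X` and `b` the block of `N` covering `B`; there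
   is an `X`-equivariant bijection between the irreducible Brauer characters of `B` and the
   `G`-classes of `B`-weights.
5. Let Navarro's equality hold for `(G, H, B)` for all `H ≠ G` between `G` and `X`.  Then it holds for
   all `(N, H, b)` in 4 with `N ≠ H`; the difference `l(B) - w(B)` of the numbers of irreducible
   Brauer characters and of classes of weights of `B` is `|X : G|` times the same difference for the
   block `e` of `X`; and the blockwise Alperin weight conjecture for `B` alone, the blockwise Alperin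
   weight conjecture for the block `e` of `X` alone, and the statements in 4 are equivalent.
6. The hypothesis of 5 holds, unconditionally, if all subgroups of `E V / V` are generated by two
   elements, for a defect group `E` of the block `e` of `X` and a `p`-solvable normal subgroup `V` of `X`
   contained in `G`.
-/

namespace Pool.Agent.Results.MP_0c8ca5_al.HypoelementaryForm

open Pool.Agent.Lib.P0c8ca5

universe u v

/-- `e` is the idempotent of an `X`-invariant block of `G`. -/
structure InvBlock {k : Type*} [Field k] {X : Type*} [Group X] (G : Subgroup X)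
    (e : MonoidAlgebra k X) : Prop where
  block : IsBlock G e
  inv : ∀ g x : X, e.coeff (g * x * g⁻¹) = e.coeff x

/-- `H / G` is an extension of a `p`-group by a cyclic group. -/
def HypoElem (p : ℕ) {X : Type*} [Group X] (G H : Subgroup X) : Prop :=
  ∃ P : Subgroup X, G ≤ P ∧ P ≤ H ∧ (∀ h ∈ H, ∀ x ∈ P, h * x * h⁻¹ ∈ P) ∧
    (∀ x ∈ P, ∃ n : ℕ, x ^ p ^ n ∈ G) ∧ ∃ t ∈ H, P ⊔ Subgroup.zpowers t = H

/-- There is a bijection from the irreducible Brauer characters of the block to the `G`-classes of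
weights that commutes with conjugation by all elements of `H`. -/
def EquivBij (p : ℕ) {k : Type*} [Field k] {X : Type*} [Group X] (G : Subgroup X)
    (e : MonoidAlgebra k X) (H : Subgroup X) : Prop :=
  ∃ β : Quotient (irrInvSetoid G ⊥ e) ≃ Quotient (wtSetoid p G e G),
    ∀ a ∈ H, ∀ (ρ σ : IrrInv G ⊥ e) (w w' : Wt p G e), RConj a ρ σ → WConj a w w' →
      β (Quotient.mk _ ρ) = Quotient.mk _ w → β (Quotient.mk _ σ) = Quotient.mk _ w'

/-- The number of orbits of `H` on the irreducible Brauer characters of the block is the number of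
`H`-classes of weights. -/
def OrbEq (p : ℕ) {k : Type*} [Field k] {X : Type*} [Group X] (G : Subgroup X)
    (e : MonoidAlgebra k X) (H : Subgroup X) : Prop :=
  Nat.card (Quot fun ρ σ : IrrInv G ⊥ e => ∃ a ∈ H, RConj a ρ σ)
    = Nat.card (Quotient (wtSetoid p G e H))

/-- The blockwise Alperin weight conjecture holds for the blocks of the subgroups of `G⟨t⟩`, `t` a
`p`-regular element, whose defect groups are contained in defect groups of `e`. -/
def LocalBAW (p : ℕ) {k : Type*} [Field k] {X : Type*} [Group X] (G : Subgroup X)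
    (e : MonoidAlgebra k X) : Prop :=
  ∀ t : X, ¬ p ∣ orderOf t → ∀ Y : Subgroup X, Y ≤ G ⊔ Subgroup.zpowers t →
    ∀ b : MonoidAlgebra k X, IsBlock Y b →
      (∀ R, IsDefectGroup p Y b R → ∃ D, IsDefectGroup p G e D ∧ R ≤ D) → NavarroEq p Y Y b

/-- `K` has a normal subgroup `M` such that `K / M` is `p`-solvable and the image of `E ∩ M` in every
nonabelian simple section of `K` is cyclic. -/
def Small (p : ℕ) {X : Type u} [Group X] (K E : Subgroup X) : Prop :=
  ∃ M : Subgroup X, M ≤ K ∧ (∀ h ∈ K, ∀ x ∈ M, h * x * h⁻¹ ∈ M) ∧ Ps.PSolv p ↥(sec K M) ∧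
    ∀ (T : Type u) [Group T] [IsSimpleGroup T], (∃ x y : T, x * y ≠ y * x) →
      ∀ (J : Subgroup X) (f : ↥J →* T), J ≤ K → Function.Surjective f →
        IsCyclic ↥(((E ⊓ M).subgroupOf J).map f)

theorem InvBlock.invBy {k : Type*} [Field k] {X : Type*} [Group X] {G : Subgroup X}
    {e : MonoidAlgebra k X} (h : InvBlock G e) : InvBy ⊤ e := fun g _ x => h.inv g x

theorem powG {p : ℕ} {X : Type*} [Group X] {G : Subgroup X} [G.Normal]
    (h : IsPGroup p (X ⧸ G)) (x : X) : ∃ n : ℕ, x ^ p ^ n ∈ G := by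
  obtain ⟨n, hn⟩ := h (QuotientGroup.mk x)
  refine ⟨n, ?_⟩
  rwa [← QuotientGroup.mk_pow, QuotientGroup.eq_one_iff] at hn

theorem le_norm {X : Type*} [Group X] {N H : Subgroup X}
    (h : ∀ g ∈ H, ∀ x ∈ N, g * x * g⁻¹ ∈ N) : H ≤ Subgroup.normalizer (N : Set X) := by
  intro g hg
  rw [Subgroup.mem_normalizer_iff]
  intro x
  refine ⟨h g hg x, fun hx => ?_⟩
  have h1 := h g⁻¹ (H.inv_mem hg) _ hx
  have e1 : g⁻¹ * (g * x * g⁻¹) * g⁻¹⁻¹ = x := by group
  rwa [e1] at h1

theorem Small.simRel {p : ℕ} {X : Type u} [Group X] {K E : Subgroup X}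
    (h : Small p K E) : Vc.SimRel p K E := by
  obtain ⟨M, h1, h2, h3, h4⟩ := h
  refine ⟨M, h1, le_norm h2, h3, fun T _ _ hT P hP _ => ?_⟩
  obtain ⟨J, f, hf, hP⟩ := hP
  let κ : ↥(J.map K.subtype) ≃* ↥J := (J.equivMapOfInjective _ K.subtype_injective).symm
  have hJK : J.map K.subtype ≤ K := by
    rintro _ ⟨x, _, rfl⟩
    exact x.2
  have h5 := h4 T hT (J.map K.subtype) (f.comp κ.toMonoidHom) hJK (hf.comp κ.surjective)
  refine Ps.cyc_of_le (hP.trans ?_) h5
  rintro _ ⟨j, hj, rfl⟩
  have h7 := Subgroup.mem_subgroupOf.1 (Subgroup.mem_subgroupOf.1 hj)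
  refine ⟨κ.symm j, Subgroup.mem_subgroupOf.2 h7, ?_⟩
  change f (κ (κ.symm j)) = f j
  rw [κ.apply_symm_apply]

section

variable {p : ℕ} [Fact p.Prime] {k : Type v} [Field k] [IsAlgClosed k] [CharP k p]
  {X : Type u} [Group X] [Finite X] {G : Subgroup X} [G.Normal] {e : MonoidAlgebra k X}

/-! ### arbitrary factor groups -/

theorem LocalBAW.below (h : InvBlock G e) (hl : LocalBAW p G e) : Hy.BelowC p G ⊤ e := by
  have : Fintype X := Fintype.ofFinite X
  intro Y _ hY b hb hR
  obtain ⟨t, ht, htY⟩ := hY.cyc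
  -- a `p`-regular generator
  have h1 : t * (pr p t)⁻¹ ∈ G ⊓ Y := by
    obtain ⟨n, hn⟩ := exists_pow_mul_inv_pr (p := p) t
    have hP : IsPGroup p (Subgroup.zpowers (t * (pr p t)⁻¹)) := by
      rintro ⟨y, hy⟩
      refine ⟨n, ?_⟩
      obtain ⟨i, rfl⟩ := Subgroup.mem_zpowers_iff.1 hy
      apply Subtype.ext
      change ((t * (pr p t)⁻¹) ^ i) ^ p ^ n = 1
      rw [← zpow_natCast, ← zpow_mul, mul_comm, zpow_mul, zpow_natCast, hn, one_zpow]
    refine hY.le_of_pGroup ?_ hP (Subgroup.mem_zpowers _)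
    rw [Subgroup.zpowers_le]
    exact Y.mul_mem ht (Y.inv_mem (pr_mem ht))
  have h2 : t ∈ G ⊔ Subgroup.zpowers (pr p t) := by
    have h3 : t * (pr p t)⁻¹ * pr p t ∈ G ⊔ Subgroup.zpowers (pr p t) :=
      Subgroup.mul_mem_sup h1.1 (Subgroup.mem_zpowers _)
    have h4 : t * (pr p t)⁻¹ * pr p t = t := by group
    rwa [h4] at h3
  have hYt : Y ≤ G ⊔ Subgroup.zpowers (pr p t) := by
    calc Y = G ⊓ Y ⊔ Subgroup.zpowers t := htY.symm
      _ ≤ _ := sup_le (inf_le_left.trans le_sup_left) (by rw [Subgroup.zpowers_le]; exact h2)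
  refine hl (pr p t) (preg_pr t) Y hYt b hb ?_
  intro R hRb
  have hRG : R ≤ G := (hY.le_of_pGroup hRb.le hRb.isPGroup).trans inf_le_left
  exact exists_defect hRG hRb.isPGroup (hR R hRb.le hRb.isPGroup hRb.br)

theorem localBAW_of_small (h : InvBlock G e) {D : Subgroup X} (hD : IsDefectGroup p G e D)
    (hs : Small p G D) : LocalBAW p G e := by
  have : Fintype X := Fintype.ofFinite X
  intro t ht Y hY b hb hR
  refine Hy.below_of_small h.block hD hs.simRel Y le_top ((Hy.cycExt_zpowers ht).sub hY) b hb ?_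
  intro R hRY hRp hbr
  obtain ⟨R', hR', hRR'⟩ := exists_defect hRY hRp hbr
  obtain ⟨D', hD', hRD'⟩ := hR R' hR'
  obtain ⟨x, hx, hx'⟩ := hD'.br
  exact ⟨x, Subgroup.centralizer_le (hRR'.trans hRD') hx, hx'⟩

theorem equivBij_hyp (h : InvBlock G e) (hl : LocalBAW p G e) {H : Subgroup X}
    (hH : HypoElem p G H) : EquivBij p G e H := by
  have : Fintype X := Fintype.ofFinite X
  obtain ⟨P, h1, h2, h3, h4, t, ht, htH⟩ := hH
  obtain ⟨Γ, hΓ⟩ := Hy.exists_hypExt h1 h2 (le_norm h3) h4 ht htH
  exact Hy.equiv_hypX hΓ h.block h.invBy ((hl.below h).mono le_top)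

theorem orbEq_hyp (h : InvBlock G e) (hl : LocalBAW p G e) {H : Subgroup X} (hGH : G ≤ H) :
    OrbEq p G e H := by
  have : Fintype X := Fintype.ofFinite X
  exact Hy.orb_hyp h.block h.invBy hGH ((hl.below h).mono le_top)

/-! ### the factor group is a `p`-group -/

theorem equivBij_top : EquivBij p G e ⊤ ↔
    ∃ β : Quotient (irrInvSetoid G ⊥ e) ≃ Quotient (wtSetoid p G e G),
      ∀ (a : X) (ρ σ : IrrInv G ⊥ e) (w w' : Wt p G e), RConj a ρ σ → WConj a w w' →
        β (Quotient.mk _ ρ) = Quotient.mk _ w → β (Quotient.mk _ σ) = Quotient.mk _ w' := by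
  constructor
  · rintro ⟨β, hβ⟩
    exact ⟨β, fun a => hβ a (Subgroup.mem_top a)⟩
  · rintro ⟨β, hβ⟩
    exact ⟨β, fun a _ => hβ a⟩

theorem cover_eq (hX : IsPGroup p (X ⧸ G)) (h : InvBlock G e) {N : Subgroup X} (hGN : G ≤ N)
    {b : MonoidAlgebra k X} (hb : IsBlock N b) (hbe : b * e ≠ 0) : b = e := by
  rcases hb.eq_or_mul_eq_zero (isBlock_up hGN (powG hX) h.block h.invBy) with h1 | h1
  · exact h1
  · exact absurd h1 hbe

theorem tfae_equivariant (hX : IsPGroup p (X ⧸ G)) (h : InvBlock G e) :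
    List.TFAE [
      ∀ H : Subgroup X, G ≤ H → NavarroEq p G H e,
      ∀ N H : Subgroup X, G ≤ N → N ≤ H → (∀ h ∈ H, ∀ n ∈ N, h * n * h⁻¹ ∈ N) →
        ∀ b : MonoidAlgebra k X, IsBlock N b → b * e ≠ 0 → NavarroEq p N H b,
      EquivBij p G e ⊤] := by
  have : Fintype X := Fintype.ofFinite X
  have key := equivariant_iff (p := p) (powG hX) h.block h.invBy
  rw [equivBij_top]
  tfae_have 1 → 3 := key.1.1
  tfae_have 3 → 2 := by
    intro h3 N H hGN hNH hn b hb hbe
    rw [cover_eq hX h hGN hb hbe]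
    exact key.2 h3 N H hGN hNH (le_norm hn)
  tfae_have 2 → 1 := by
    intro h2 H hGH
    refine h2 G H (le_refl G) hGH ?_ e h.block (by rw [h.block.idem]; exact h.block.ne_zero)
    intro h _ n hn
    exact Subgroup.Normal.conj_mem inferInstance n hn h
  tfae_finish

theorem almost_all (hX : IsPGroup p (X ⧸ G)) (h : InvBlock G e)
    (hH : ∀ H : Subgroup X, G < H → NavarroEq p G H e) :
    (∀ N H : Subgroup X, G ≤ N → N < H → (∀ h ∈ H, ∀ n ∈ N, h * n * h⁻¹ ∈ N) →
        ∀ b : MonoidAlgebra k X, IsBlock N b → b * e ≠ 0 → NavarroEq p N H b) ∧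
      G.index * Nat.card (Quotient (irrInvSetoid (⊤ : Subgroup X) ⊤ e))
          + Nat.card (Quotient (wtSetoid p G e G))
        = G.index * Nat.card (Quotient (wtSetoid p (⊤ : Subgroup X) e ⊤))
          + Nat.card (Quotient (irrInvSetoid G ⊥ e)) ∧
      List.TFAE [NavarroEq p G G e, NavarroEq p ⊤ ⊤ e, EquivBij p G e ⊤] := by
  have : Fintype X := Fintype.ofFinite X
  refine ⟨?_, Cy.card_add_eq (powG hX) h.block h.invBy hH, ?_⟩
  · intro N H hGN hNH hn b hb hbe
    rw [cover_eq hX h hGN hb hbe]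
    exact Cy.navarro_lt (powG hX) h.block h.invBy hH hGN hNH (le_norm hn)
  · have key := (equivariant_iff (p := p) (powG hX) h.block h.invBy).1
    rw [equivBij_top]
    tfae_have 1 → 3 := by
      intro h1
      refine key.1 (fun H hGH => ?_)
      by_cases h2 : G = H
      · rw [← h2]; exact h1
      · exact hH H (lt_of_le_of_ne hGH h2)
    tfae_have 3 → 1 := fun h3 => key.2 h3 G le_rfl
    tfae_have 1 ↔ 2 := (Cy.navarro_self_iff (powG hX) h.block h.invBy hH le_top).symm
    tfae_finish

theorem navarro_gt (hX : IsPGroup p (X ⧸ G)) (h : InvBlock G e) {E : Subgroup X}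
    (hE : IsDefectGroup p ⊤ e E)
    {V : Subgroup X} [hV : V.Normal] (hVs : Ps.PSolv p ↥V) (hVG : V ≤ G)
    (hl : ∀ N : Subgroup X, N ≤ E → Group.rank ↥(N.map (QuotientGroup.mk' V)) ≤ 2)
    (H : Subgroup X) (hGH : G < H) : NavarroEq p G H e := by
  have : Fintype X := Fintype.ofFinite X
  exact Ps.navarro_gtW (powG hX) h.block h.invBy hE hVs hVG hl hGH

end

/-! ### all finite groups -/

section

variable {p : ℕ} [Fact p.Prime] {k : Type v} [Field k] [IsAlgClosed k] [CharP k p]
  {X : Type u} [Group X] [Finite X] {e : MonoidAlgebra k X}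

theorem invBlock_top (he : IsBlock (⊤ : Subgroup X) e) : InvBlock (⊤ : Subgroup X) e :=
  ⟨he, fun g x => he.invBy g (Subgroup.mem_top g) x⟩

theorem pgroup_top : IsPGroup p (X ⧸ (⊤ : Subgroup X)) := by
  intro x
  refine ⟨0, ?_⟩
  obtain ⟨y, rfl⟩ := QuotientGroup.mk_surjective x
  rw [← QuotientGroup.mk_pow, QuotientGroup.eq_one_iff]
  exact Subgroup.mem_top _

theorem hypoElem_of_pgroup {G : Subgroup X} [G.Normal] (h : IsPGroup p (X ⧸ G)) :
    HypoElem p G ⊤ :=
  ⟨⊤, le_top, le_rfl, fun _ _ _ _ => Subgroup.mem_top _, fun x _ => powG h x, 1,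
    Subgroup.mem_top _, top_sup_eq _⟩

theorem navarro_of_orbEq (he : IsBlock (⊤ : Subgroup X) e) (h : OrbEq p (⊤ : Subgroup X) e ⊤) :
    NavarroEq p ⊤ ⊤ e := by
  have : Fintype X := Fintype.ofFinite X
  have hinv : InvBy ⊤ e := he.invBy
  have hfinW : Finite (Wt p (⊤ : Subgroup X) e) := finite_Wt he hinv
  have : Finite (IrX (⊤ : Subgroup X) e) := inferInstance
  have : Fintype (IrX (⊤ : Subgroup X) e) := Fintype.ofFinite _
  have : Fintype (WtC p (⊤ : Subgroup X) e) := Fintype.ofFinite _
  rw [Cy.marks_of_navarro (fun x => ⟨0, Subgroup.mem_top _⟩) he hinv le_rfl]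
  have e1 : Nat.card {x : IrX (⊤ : Subgroup X) e // ⊤ ≤ stX (G := ⊤) hinv x}
      = Nat.card (IrX (⊤ : Subgroup X) e) :=
    Nat.card_congr (Equiv.subtypeUnivEquiv (fun x => G_le_stX hinv x))
  have e2 : Nat.card {x : WtC p (⊤ : Subgroup X) e // ⊤ ≤ stZ (p := p) he hinv x}
      = Nat.card (WtC p (⊤ : Subgroup X) e) :=
    Nat.card_congr (Equiv.subtypeUnivEquiv (fun x => G_le_stZ he hinv x))
  have e3 : Nat.card (Quot fun ρ σ : IrrInv (⊤ : Subgroup X) ⊥ e =>
      ∃ a ∈ (⊤ : Subgroup X), RConj a ρ σ) = Nat.card (IrX (⊤ : Subgroup X) e) := by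
    refine Nat.card_congr (Quot.congrRight (fun ρ σ => ?_))
    let _ := actX (G := (⊤ : Subgroup X)) hinv
    constructor
    · rintro ⟨a, -, h⟩
      rw [rConj_iff hinv] at h
      have h1 : a • (Quotient.mk _ ρ : IrX (⊤ : Subgroup X) e) = Quotient.mk _ ρ :=
        G_le_stX hinv _ (Subgroup.mem_top a)
      rw [h1] at h
      exact Quotient.exact h
    · intro h
      refine ⟨1, Subgroup.mem_top 1, ?_⟩
      rw [rConj_iff hinv, one_smul]
      exact Quotient.sound h
  rw [e1, e2, ← e3]
  exact h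

end

theorem result {p : ℕ} [Fact p.Prime] {k : Type v} [Field k] [IsAlgClosed k] [CharP k p] :
    (∀ (X : Type u) [Group X] [Finite X] (G : Subgroup X) [G.Normal] (e : MonoidAlgebra k X),
      InvBlock G e →
      (LocalBAW p G e →
        (∀ H : Subgroup X, G ≤ H → OrbEq p G e H) ∧
        (∀ H : Subgroup X, G ≤ H → HypoElem p G H → EquivBij p G e H)) ∧
      (∀ D : Subgroup X, IsDefectGroup p G e D → Small p G D → LocalBAW p G e) ∧
      (IsPGroup p (X ⧸ G) →
        List.TFAE [
          ∀ H : Subgroup X, G ≤ H → NavarroEq p G H e,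
          ∀ N H : Subgroup X, G ≤ N → N ≤ H → (∀ h ∈ H, ∀ n ∈ N, h * n * h⁻¹ ∈ N) →
            ∀ b : MonoidAlgebra k X, IsBlock N b → b * e ≠ 0 → NavarroEq p N H b,
          EquivBij p G e ⊤] ∧
        ((∀ H : Subgroup X, G < H → NavarroEq p G H e) →
          (∀ N H : Subgroup X, G ≤ N → N < H → (∀ h ∈ H, ∀ n ∈ N, h * n * h⁻¹ ∈ N) →
            ∀ b : MonoidAlgebra k X, IsBlock N b → b * e ≠ 0 → NavarroEq p N H b) ∧
          G.index * Nat.card (Quotient (irrInvSetoid (⊤ : Subgroup X) ⊤ e))
              + Nat.card (Quotient (wtSetoid p G e G))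
            = G.index * Nat.card (Quotient (wtSetoid p (⊤ : Subgroup X) e ⊤))
              + Nat.card (Quotient (irrInvSetoid G ⊥ e)) ∧
          List.TFAE [NavarroEq p G G e, NavarroEq p ⊤ ⊤ e, EquivBij p G e ⊤]) ∧
        (∀ E : Subgroup X, IsDefectGroup p ⊤ e E →
          ∀ (V : Subgroup X) [V.Normal], Ps.PSolv p ↥V → V ≤ G →
            (∀ N : Subgroup X, N ≤ E → Group.rank ↥(N.map (QuotientGroup.mk' V)) ≤ 2) →
              ∀ H : Subgroup X, G < H → NavarroEq p G H e))) ∧
    List.TFAE [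
      ∀ (X : Type u) [Group X] [Finite X] (e : MonoidAlgebra k X), IsBlock ⊤ e →
        NavarroEq p ⊤ ⊤ e,
      ∀ (X : Type u) [Group X] [Finite X] (G : Subgroup X) [G.Normal] (e : MonoidAlgebra k X),
        InvBlock G e → IsPGroup p (X ⧸ G) → NavarroEq p G ⊤ e,
      ∀ (X : Type u) [Group X] [Finite X] (G : Subgroup X) [G.Normal] (e : MonoidAlgebra k X),
        InvBlock G e → ∀ H : Subgroup X, G ≤ H → OrbEq p G e H,
      ∀ (X : Type u) [Group X] [Finite X] (G : Subgroup X) [G.Normal] (e : MonoidAlgebra k X),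
        InvBlock G e → ∀ H : Subgroup X, G ≤ H → HypoElem p G H → EquivBij p G e H] := by
  refine ⟨fun X _ _ G _ e h => ⟨fun hl => ⟨fun H hGH => orbEq_hyp h hl hGH,
    fun H _ hH => equivBij_hyp h hl hH⟩, fun D hD hs => localBAW_of_small h hD hs,
    fun hX => ⟨tfae_equivariant hX h, almost_all hX h,
    fun E hE V hV hVs hVG hl H hGH => navarro_gt hX h hE hVs hVG hl H hGH⟩⟩, ?_⟩
  have hloc : (∀ (X : Type u) [Group X] [Finite X] (e : MonoidAlgebra k X), IsBlock ⊤ e →
      NavarroEq p ⊤ ⊤ e) → ∀ (X : Type u) [Group X] [Finite X] (G : Subgroup X)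
      (e : MonoidAlgebra k X), LocalBAW p G e := by
    intro h X _ _ G e t _ Y _ b hb _
    exact navarro_transport hb (h _ (dn _ b) (dn_isBlock hb))
  tfae_have 1 → 3 := by
    intro h X _ _ G _ e he H hGH
    exact orbEq_hyp he (hloc h X G e) hGH
  tfae_have 1 → 4 := by
    intro h X _ _ G _ e he H _ hH
    exact equivBij_hyp he (hloc h X G e) hH
  tfae_have 4 → 2 := by
    intro h X _ _ G _ e he hX
    have h1 := ((tfae_equivariant hX he).out 0 2).2 (h X G e he ⊤ le_top (hypoElem_of_pgroup hX))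
    exact h1 ⊤ le_top
  tfae_have 2 → 1 := by
    intro h X _ _ e he
    exact h X ⊤ e (invBlock_top he) pgroup_top
  tfae_have 3 → 1 := by
    intro h X _ _ e he
    exact navarro_of_orbEq he (h X ⊤ e (invBlock_top he) ⊤ le_top)
  tfae_finish

end Pool.Agent.Results.MP_0c8ca5_al.HypoelementaryForm
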