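import Mathlib
import Pool.Agent.Lib.P0c8ca5N.TrC
import Pool.Agent.Lib.P0c8ca5N.DefW

/-!
# Navarro's blockwise conjecture is equivalent to the blockwise Alperin weight conjecture

For `G` normal in the finite group `Γ` with `Γ / G` a `p`-group and a `Γ`-invariant block of `G`, the
difference of the two sides of Navarro's equality is an alternating sum of the differences of the two
sides of the blockwise Alperin weight conjecture for blocks of the subgroups `N_G(σ)` of `G`, where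
`σ` runs through the nonempty chains of `p`-subgroups `Q` of `Γ` with `G Q = Γ`. The defect groups
of the blocks of `N_G(σ)` which occur are contained in defect groups of the given block.
-/

namespace Pool.Agent.Results.MP_0c8ca5_al.NavarroIffWeight

open Pool.Agent.Lib.P0c8ca5

variable {k : Type*} [Field k] {A : Type*} [Group A]

/-- The nonempty chains of `p`-subgroups `Q` of `A` with `G Q = A`. -/
def SupChains (p : ℕ) (G : Subgroup A) : Set (Finset (Subgroup A)) :=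
  {σ | σ.Nonempty ∧ IsChain (· ≤ ·) (σ : Set (Subgroup A)) ∧ ∀ Q ∈ σ, IsPGroup p Q ∧ G ⊔ Q = ⊤}

/-- `N_G(σ)`, the elements of `G` normalizing all members of `σ`. -/
def NG (G : Subgroup A) (σ : Finset (Subgroup A)) : Subgroup A :=
  G ⊓ ⨅ Q ∈ σ, Subgroup.normalizer (Q : Set A)

/-- The blocks `b` of `N_G(σ)` with `b * Br(e) ≠ 0`, where `Br(e)` is the part of `e` supported in
the centralizer of the largest member of `σ`. -/
def BlNG (G : Subgroup A) (σ : Finset (Subgroup A)) (e : MonoidAlgebra k A) :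
    Set (MonoidAlgebra k A) :=
  {b | IsBlock (NG G σ) b ∧ b * resS (Subgroup.centralizer ((σ.sup id : Subgroup A) : Set A)) e ≠ 0}

theorem formula_top {p : ℕ} [Fact p.Prime] [IsAlgClosed k] [CharP k p] [Finite A]
    (G : Subgroup A) [hG : G.Normal] (hA : IsPGroup p (A ⧸ G)) {e : MonoidAlgebra k A}
    (he : IsBlock G e) (hinv : ∀ g x : A, e.coeff (g * x * g⁻¹) = e.coeff x) :
    (NavarroEq p G ⊤ e ↔ gap p G ⊤ e = 0) ∧
    (Nat.card G : ℚ) * gap p G ⊤ e = ∑ᶠ (σ : Finset (Subgroup A)) (_ : σ ∈ SupChains p G),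
      (-1) ^ (σ.card + 1) * ((Nat.card (NG G σ) : ℚ) *
        ∑ᶠ (b : MonoidAlgebra k A) (_ : b ∈ BlNG G σ e), gap p (NG G σ) (NG G σ) b) := by
  classical
  have : Fintype A := Fintype.ofFinite A
  have : Fintype (Subgroup A) := Fintype.ofFinite _
  have hn : (⊤ : Subgroup A) ≤ Subgroup.normalizer (G : Set A) := by
    rw [Subgroup.normalizer_eq_top]
  have hp : ∀ x ∈ (⊤ : Subgroup A), ∃ n : ℕ, x ^ p ^ n ∈ G := by
    intro x _
    obtain ⟨n, hn⟩ := hA (QuotientGroup.mk x)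
    refine ⟨n, ?_⟩
    rwa [← QuotientGroup.mk_pow, QuotientGroup.eq_one_iff] at hn
  have hinv' : InvBy ⊤ e := fun g _ x => hinv g x
  refine ⟨navarroEq_iff_gap le_top hn hp he hinv', ?_⟩
  let D : Finset (Subgroup A) := Finset.univ.filter (fun Q => Q ∈ Supp p G ⊤)
  have hD : ∀ Q, Q ∈ D ↔ Q ∈ Supp p G ⊤ := by intro Q; simp [D]
  have hst : ∀ σ : Finset (Subgroup A), G ⊓ stab ⊤ σ = NG G σ := by
    intro σ
    rw [stab, NG, top_inf_eq]
  have hfin : ∀ σ : Finset (Subgroup A), (BlNG G σ e).Finite :=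
    fun σ => (finite_isBlock (k := k) (NG G σ)).subset (fun b hb => hb.1)
  have h := formula le_top hn hp he hinv' D hD (fun σ => (hfin σ).toFinset) (by
    intro σ b
    rw [Set.Finite.mem_toFinset, hst]
    exact Iff.rfl)
  have hmem : ∀ σ : Finset (Subgroup A),
      σ ∈ (Ch D).filter (fun σ => σ.Nonempty) ↔ σ ∈ SupChains p G := by
    intro σ
    rw [Finset.mem_filter, Ch, Finset.mem_filter, Finset.mem_powerset]
    constructor
    · rintro ⟨⟨h1, h2⟩, h3⟩
      refine ⟨h3, h2, fun Q hQ => ?_⟩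
      have h4 := (hD Q).1 (h1 hQ)
      exact ⟨h4.2.1, h4.2.2⟩
    · rintro ⟨h1, h2, h3⟩
      exact ⟨⟨fun Q hQ => (hD Q).2 ⟨le_top, (h3 Q hQ).1, (h3 Q hQ).2⟩, h2⟩, h1⟩
  have h1 : ∑ᶠ (σ : Finset (Subgroup A)) (_ : σ ∈ SupChains p G),
      (-1) ^ (σ.card + 1) * ((Nat.card (NG G σ) : ℚ) *
        ∑ᶠ (b : MonoidAlgebra k A) (_ : b ∈ BlNG G σ e), gap p (NG G σ) (NG G σ) b)
      = ∑ σ ∈ (Ch D).filter (fun σ => σ.Nonempty),
      (-1) ^ (σ.card + 1) * ((Nat.card (NG G σ) : ℚ) *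
        ∑ b ∈ (hfin σ).toFinset, gap p (NG G σ) (NG G σ) b) := by
    have e1 : ∀ σ : Finset (Subgroup A),
        ∑ᶠ (b : MonoidAlgebra k A) (_ : b ∈ BlNG G σ e), gap p (NG G σ) (NG G σ) b
        = ∑ b ∈ (hfin σ).toFinset, gap p (NG G σ) (NG G σ) b :=
      fun σ => finsum_mem_eq_finite_toFinset_sum _ (hfin σ)
    simp only [e1]
    rw [← finsum_mem_coe_finset]
    have e2 : (SupChains p G : Set (Finset (Subgroup A)))
        = ↑((Ch D).filter (fun σ => σ.Nonempty)) := by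
      ext σ
      rw [Finset.mem_coe, hmem]
    rw [e2]
  rw [h1]
  have hcard : ∀ σ ∈ (Ch D).filter (fun σ => σ.Nonempty),
      (Nat.card A : ℚ) * (Nat.card (NG G σ) : ℚ)
        = (Nat.card G : ℚ) * (Nat.card ↥(stab ⊤ σ) : ℚ) := by
    intro σ hσ
    obtain ⟨h2, h3, h4⟩ := (hmem σ).1 hσ
    obtain ⟨Q, hQσ, hQmin⟩ := exists_least h2 h3
    have h5 : G ⊔ stab ⊤ σ = ⊤ := by
      have h6 : Q ≤ stab ⊤ σ := by
        intro x hx
        rw [mem_stab]
        exact ⟨Subgroup.mem_top x, fun R hR => Subgroup.le_normalizer (hQmin R hR hx)⟩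
      have h7 : G ⊔ Q ≤ G ⊔ stab ⊤ σ := sup_le_sup_left h6 G
      rw [(h4 Q hQσ).2] at h7
      exact top_le_iff.1 h7
    have h6 := card_sup_mul (L := G) (D := stab ⊤ σ) (le_top.trans hn)
    rw [h5, hst, Subgroup.card_top] at h6
    exact_mod_cast h6
  have hpos : (Nat.card A : ℚ) ≠ 0 := by
    exact_mod_cast (Nat.card_pos (α := A)).ne'
  apply mul_left_cancel₀ hpos
  rw [← mul_assoc, mul_comm (Nat.card A : ℚ), mul_assoc]
  rw [Subgroup.card_top] at h
  rw [h, Finset.mul_sum, Finset.mul_sum]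
  refine Finset.sum_congr rfl (fun σ hσ => ?_)
  rw [hst]
  have h7 := hcard σ hσ
  have e3 : ∀ s c g x u y : ℚ, c * x = g * y → g * (s * (y * u)) = c * (s * (x * u)) := by
    intro s c g x u y hh
    linear_combination (-(s * u)) * hh
  exact e3 _ _ _ _ _ _ h7

/-- Navarro's equality for `e` follows from the blockwise Alperin weight conjecture for the blocks
of the subgroups of `G` all of whose defect groups are contained in defect groups of `e`. -/
theorem navarro_of_defect {p : ℕ} [Fact p.Prime] [IsAlgClosed k] [CharP k p] [Finite A]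
    (G : Subgroup A) [hG : G.Normal] (hA : IsPGroup p (A ⧸ G)) {e : MonoidAlgebra k A}
    (he : IsBlock G e) (hinv : ∀ g x : A, e.coeff (g * x * g⁻¹) = e.coeff x)
    (hbaw : ∀ H : Subgroup A, H ≤ G → ∀ b : MonoidAlgebra k A, IsBlock H b →
      (∀ R, IsDefectGroup p H b R → ∃ D, IsDefectGroup p G e D ∧ R ≤ D) → NavarroEq p H H b) :
    NavarroEq p G ⊤ e := by
  have : Fintype A := Fintype.ofFinite A
  have hinv' : InvBy ⊤ e := fun g _ x => hinv g x
  have hp : ∀ x ∈ (⊤ : Subgroup A), ∃ n : ℕ, x ^ p ^ n ∈ G := by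
    intro x _
    obtain ⟨n, hn⟩ := hA (QuotientGroup.mk x)
    refine ⟨n, ?_⟩
    rwa [← QuotientGroup.mk_pow, QuotientGroup.eq_one_iff] at hn
  exact navarro_of_baw le_top (fun x _ => mem_norm_of_normal G x) hp he hinv'
    (fun σ hne hσ hσS b hb hbe => hbaw _ inf_le_left b hb (fun R hR =>
      defect_of_chain_block le_top he hinv' hne hσ hσS hb hbe hR))

universe u v

theorem result {p : ℕ} [Fact p.Prime] {k : Type v} [Field k] [IsAlgClosed k] [CharP k p] :
    (∀ (Γ : Type u) [Group Γ] [Finite Γ] (G : Subgroup Γ) [G.Normal], IsPGroup p (Γ ⧸ G) →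
      ∀ e : MonoidAlgebra k Γ, IsBlock G e →
      (∀ g x : Γ, e.coeff (g * x * g⁻¹) = e.coeff x) →
      (NavarroEq p G ⊤ e ↔ gap p G ⊤ e = 0) ∧
      (Nat.card G : ℚ) * gap p G ⊤ e = ∑ᶠ (σ : Finset (Subgroup Γ)) (_ : σ ∈ SupChains p G),
        (-1) ^ (σ.card + 1) * ((Nat.card (NG G σ) : ℚ) *
          ∑ᶠ (b : MonoidAlgebra k Γ) (_ : b ∈ BlNG G σ e), gap p (NG G σ) (NG G σ) b) ∧
      ((∀ H : Subgroup Γ, H ≤ G → ∀ b : MonoidAlgebra k Γ, IsBlock H b →
        (∀ R, IsDefectGroup p H b R → ∃ D, IsDefectGroup p G e D ∧ R ≤ D) → NavarroEq p H H b) →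
        NavarroEq p G ⊤ e)) ∧
    ((∀ (Γ : Type u) [Group Γ] [Finite Γ] (G : Subgroup Γ) [G.Normal], IsPGroup p (Γ ⧸ G) →
        ∀ e : MonoidAlgebra k Γ, IsBlock G e →
        (∀ g x : Γ, e.coeff (g * x * g⁻¹) = e.coeff x) → NavarroEq p G ⊤ e) ↔
      ∀ (Γ : Type u) [Group Γ] [Finite Γ] (e : MonoidAlgebra k Γ), IsBlock ⊤ e →
        NavarroEq p ⊤ ⊤ e) := by
  refine ⟨fun Γ _ _ G _ hΓ e he hinv => ⟨(formula_top G hΓ he hinv).1,
    (formula_top G hΓ he hinv).2, fun h => navarro_of_defect G hΓ he hinv h⟩, ?_, ?_⟩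
  · intro h Γ _ _ e he
    refine h Γ ⊤ ?_ e he (fun g x => he.invBy g (Subgroup.mem_top g) x)
    intro x
    refine ⟨0, ?_⟩
    obtain ⟨y, rfl⟩ := QuotientGroup.mk_surjective x
    rw [← QuotientGroup.mk_pow, QuotientGroup.eq_one_iff]
    exact Subgroup.mem_top _
  · intro h Γ _ _ G _ hΓ e he hinv
    have : Fintype Γ := Fintype.ofFinite Γ
    have hinv' : InvBy ⊤ e := fun g _ x => hinv g x
    have hp : ∀ x ∈ (⊤ : Subgroup Γ), ∃ n : ℕ, x ^ p ^ n ∈ G := by
      intro x _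
      obtain ⟨n, hn⟩ := hΓ (QuotientGroup.mk x)
      refine ⟨n, ?_⟩
      rwa [← QuotientGroup.mk_pow, QuotientGroup.eq_one_iff] at hn
    exact navarro_of_baw le_top (fun x _ => mem_norm_of_normal G x) hp he hinv'
      (fun σ _ _ _ b hb _ => navarro_transport hb (h _ (dn _ b) (dn_isBlock hb)))

end Pool.Agent.Results.MP_0c8ca5_al.NavarroIffWeight
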